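import Mathlib
import Pool.Agent.TH439.Lower

/-!
# MP_85f59e_co: the number of MDS codes of minimum distance 2

`N q n` is the number of MDS codes of length `n` and minimum distance `2` over an alphabet with
`q` symbols (equivalently, of Latin hypercubes of dimension `n - 1` and order `q`).

We prove `log₂ N q n ≤ (q - 1) (q / 2) ^ (n - 1)` for all `q` and `n`.  Together with the elementary
lower bound for even `q` this shows that `λ_q` exists and equals `log₂ (q / 2)` for every even `q`,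
and that the upper growth rate is at most `log₂ (q / 2)` for every `q`.
-/

set_option autoImplicit false

namespace Pool.Agent.Results.MP_85f59e_co.GrowthEven

open Finset Filter Topology Pool.Agent.TH439.Upper Pool.Agent.TH439.Codes Real

theorem N_pow_le (q n : ℕ) (hq : 1 ≤ q) (hn : 1 ≤ n) :
    (N q n) ^ (2 ^ (n - 1)) ≤ 2 ^ ((q - 1) * q ^ (n - 1)) := by
  classical
  obtain ⟨k, rfl⟩ : ∃ k, n = k + 1 := ⟨n - 1, by omega⟩
  rw [N_eq, Nat.card_eq_fintype_card, Fintype.card_subtype, Nat.add_sub_cancel]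
  exact card_pow_le hq _ (fun f hf => (Finset.mem_filter.1 hf).2)

theorem N_le_rpow (q n : ℕ) (hq : 1 ≤ q) (hn : 1 ≤ n) :
    (N q n : ℝ) ≤ (2 : ℝ) ^ (((q : ℝ) - 1) * ((q : ℝ) / 2) ^ (n - 1)) := by
  classical
  obtain ⟨k, rfl⟩ : ∃ k, n = k + 1 := ⟨n - 1, by omega⟩
  rw [N_eq, Nat.card_eq_fintype_card, Fintype.card_subtype, Nat.add_sub_cancel]
  exact card_le_rpow hq _ (fun f hf => (Finset.mem_filter.1 hf).2)

theorem le_N (q n : ℕ) (he : Even q) (hq : 1 ≤ q) (hn : 1 ≤ n) :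
    2 ^ ((q / 2) ^ (n - 1)) ≤ N q n := by
  obtain ⟨k, rfl⟩ : ∃ k, n = k + 1 := ⟨n - 1, by omega⟩
  obtain ⟨m, rfl⟩ := even_iff_two_dvd.1 he
  rw [N_eq, Nat.add_sub_cancel, Nat.mul_div_cancel_left _ (by norm_num)]
  exact Pool.Agent.TH439.Lower.le_card (by omega)

theorem tendsto_aux (A B : ℝ) :
    Tendsto (fun n : ℕ => (A + ((n : ℝ) - 1) * B) / n) atTop (𝓝 B) := by
  have h : Tendsto (fun n : ℕ => B + (A - B) / (n : ℝ)) atTop (𝓝 (B + 0)) :=
    tendsto_const_nhds.add (tendsto_const_div_atTop_nhds_zero_nat _)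
  rw [add_zero] at h
  refine h.congr' ?_
  filter_upwards [eventually_ge_atTop 1] with n hn
  have : (n : ℝ) ≠ 0 := by
    have : (1 : ℝ) ≤ n := by exact_mod_cast hn
    linarith
  field_simp
  ring

/-- The doubly logarithmic upper bound. -/
theorem loglog_le (q n : ℕ) (hq : 2 ≤ q) (hn : 1 ≤ n) :
    logb 2 (logb 2 (N q n)) ≤ logb 2 ((q : ℝ) - 1) + ((n : ℝ) - 1) * logb 2 ((q : ℝ) / 2) := by
  have hq' : (2 : ℝ) ≤ q := by exact_mod_cast hq
  have hn' : (1 : ℝ) ≤ n := by exact_mod_cast hn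
  have hA : 0 ≤ logb 2 ((q : ℝ) - 1) := Real.logb_nonneg (by norm_num) (by linarith)
  have hB : 0 ≤ logb 2 ((q : ℝ) / 2) := Real.logb_nonneg (by norm_num) (by linarith)
  have hRHS : 0 ≤ logb 2 ((q : ℝ) - 1) + ((n : ℝ) - 1) * logb 2 ((q : ℝ) / 2) :=
    add_nonneg hA (mul_nonneg (by linarith) hB)
  rcases Nat.lt_or_ge (N q n) 2 with h2 | h2
  · have h3 : N q n = 0 ∨ N q n = 1 := by omega
    rcases h3 with h3 | h3 <;> rw [h3] <;> simpa using hRHS
  · have h2' : (2 : ℝ) ≤ N q n := by exact_mod_cast h2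
    have h4 : 1 ≤ logb 2 (N q n) := by
      rw [Real.le_logb_iff_rpow_le (by norm_num) (by linarith)]
      simpa using h2'
    have h5 : logb 2 (N q n) ≤ ((q : ℝ) - 1) * ((q : ℝ) / 2) ^ (n - 1) := by
      rw [Real.logb_le_iff_le_rpow (by norm_num) (by linarith)]
      exact N_le_rpow q n (by omega) hn
    have h6 : logb 2 (logb 2 (N q n)) ≤ logb 2 (((q : ℝ) - 1) * ((q : ℝ) / 2) ^ (n - 1)) :=
      Real.logb_le_logb_of_le (by norm_num) (by linarith) h5
    rw [Real.logb_mul (by linarith) (by positivity), Real.logb_pow, Nat.cast_sub hn] at h6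
    simpa using h6

/-- The doubly logarithmic lower bound. -/
theorem le_loglog (q n : ℕ) (he : Even q) (hq : 2 ≤ q) (hn : 1 ≤ n) :
    ((n : ℝ) - 1) * logb 2 ((q : ℝ) / 2) ≤ logb 2 (logb 2 (N q n)) := by
  have h1 := le_N q n he (by omega) hn
  have h1' : ((2 ^ ((q / 2) ^ (n - 1)) : ℕ) : ℝ) ≤ (N q n : ℝ) := by exact_mod_cast h1
  have hq2 : ((q / 2 : ℕ) : ℝ) = (q : ℝ) / 2 := by
    obtain ⟨m, rfl⟩ := even_iff_two_dvd.1 he
    rw [Nat.mul_div_cancel_left _ (by norm_num)]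
    push_cast
    ring
  have hq' : (2 : ℝ) ≤ q := by exact_mod_cast hq
  have hpos : (0 : ℝ) < (N q n : ℝ) := lt_of_lt_of_le (by positivity) h1'
  have h2 : ((q : ℝ) / 2) ^ (n - 1) ≤ logb 2 (N q n) := by
    rw [Real.le_logb_iff_rpow_le (by norm_num) hpos]
    refine le_trans (le_of_eq ?_) h1'
    rw [← hq2, ← Nat.cast_pow, Real.rpow_natCast]
    push_cast
    rfl
  have h3 : logb 2 (((q : ℝ) / 2) ^ (n - 1)) ≤ logb 2 (logb 2 (N q n)) :=
    Real.logb_le_logb_of_le (by norm_num) (by positivity) h2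
  rw [Real.logb_pow, Nat.cast_sub hn] at h3
  simpa using h3

/-- **Main theorem.**  For every alphabet size `q ≥ 2` the number of MDS codes of length `n` and
minimum distance `2` is at most `2 ^ ((q - 1) (q / 2) ^ (n - 1))`; hence the upper growth rate of
`log₂ log₂ N q n` is at most `log₂ (q / 2)`, and for even `q` the limit `λ_q` exists and is
`log₂ (q / 2)`. -/
theorem result (q : ℕ) (hq : 2 ≤ q) :
    (∀ n : ℕ, 1 ≤ n → (N q n : ℝ) ≤ (2 : ℝ) ^ (((q : ℝ) - 1) * ((q : ℝ) / 2) ^ (n - 1))) ∧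
    limsup (fun n : ℕ => logb 2 (logb 2 (N q n)) / n) atTop ≤ logb 2 ((q : ℝ) / 2) ∧
    (Even q →
      Tendsto (fun n : ℕ => logb 2 (logb 2 (N q n)) / n) atTop (𝓝 (logb 2 ((q : ℝ) / 2)))) := by
  have hup : ∀ᶠ n : ℕ in atTop, logb 2 (logb 2 (N q n)) / n ≤
      (logb 2 ((q : ℝ) - 1) + ((n : ℝ) - 1) * logb 2 ((q : ℝ) / 2)) / n := by
    filter_upwards [eventually_ge_atTop 1] with n hn
    exact div_le_div_of_nonneg_right (loglog_le q n hq hn) (Nat.cast_nonneg n)
  refine ⟨fun n hn => N_le_rpow q n (by omega) hn, ?_, ?_⟩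
  · have h1 := tendsto_aux (logb 2 ((q : ℝ) - 1)) (logb 2 ((q : ℝ) / 2))
    rw [← h1.limsup_eq]
    refine Filter.limsup_le_limsup hup ?_ ?_
    · apply Filter.IsBoundedUnder.isCoboundedUnder_le
      refine ⟨0, ?_⟩
      rw [Filter.eventually_map]
      filter_upwards with n
      apply div_nonneg _ (Nat.cast_nonneg n)
      rcases Nat.lt_or_ge (N q n) 2 with h2 | h2
      · have h3 : N q n = 0 ∨ N q n = 1 := by omega
        rcases h3 with h3 | h3 <;> rw [h3] <;> simp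
      · have h2' : (2 : ℝ) ≤ N q n := by exact_mod_cast h2
        apply Real.logb_nonneg (by norm_num)
        rw [Real.le_logb_iff_rpow_le (by norm_num) (by linarith)]
        simpa using h2'
    · exact h1.isBoundedUnder_le
  · intro he
    refine tendsto_of_tendsto_of_tendsto_of_le_of_le'
      (tendsto_aux 0 (logb 2 ((q : ℝ) / 2)))
      (tendsto_aux (logb 2 ((q : ℝ) - 1)) (logb 2 ((q : ℝ) / 2))) ?_ hup
    filter_upwards [eventually_ge_atTop 1] with n hn
    apply div_le_div_of_nonneg_right _ (Nat.cast_nonneg n)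
    rw [zero_add]
    exact le_loglog q n he hq hn

end Pool.Agent.Results.MP_85f59e_co.GrowthEven
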